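import Pool.Agent.H10R3.SC.Stmts3

set_option autoImplicit false

/-!
Task CX3 (project H10-CX): the gadgets make no bridges.
-/

open Finset

namespace Pool.Agent.H28R3.CX

open Pool.Agent.Helper347.Sab
open Pool.Agent.H444.FA
open Pool.Agent.H10R3.SC

theorem cross {W : Type} [DecidableEq W] (p q : W) (Y : Finset W) :
    ((∃ u, u ∈ s(p, q) ∧ u ∈ Y) ∧ ∃ w, w ∈ s(p, q) ∧ w ∉ Y) ↔ ¬ ((p ∈ Y) ↔ (q ∈ Y)) := by
  constructor
  · rintro ⟨⟨u, hu, huY⟩, w, hw, hwY⟩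
    rw [Sym2.mem_iff] at hu hw
    rcases hu with rfl | rfl <;> rcases hw with rfl | rfl <;> tauto
  · intro h
    by_cases hp : p ∈ Y
    · have hq : q ∉ Y := fun hq => h ⟨fun _ => hq, fun _ => hp⟩
      exact ⟨⟨p, Sym2.mem_mk_left p q, hp⟩, q, Sym2.mem_mk_right p q, hq⟩
    · have hq : q ∈ Y := by
        by_contra hq
        exact h ⟨fun h => absurd h hp, fun h => absurd h hq⟩
      exact ⟨⟨q, Sym2.mem_mk_right p q, hq⟩, p, Sym2.mem_mk_left p q, hp⟩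

theorem sum4 (f : Fin 4 → ℕ) (k l l' : Fin 4) (hk : k ≠ 0) (hl : l ≠ 0) (hl' : l' ≠ 0)
    (h1 : k ≠ l) (h2 : k ≠ l') (h3 : l ≠ l') : ∑ j, f j = f 0 + f k + f l + f l' := by
  have hu : (univ : Finset (Fin 4)) = {0, k, l, l'} := by
    revert k l l'
    decide
  rw [hu, Finset.sum_insert, Finset.sum_insert, Finset.sum_pair h3]
  · ring
  · simp [h1, h2]
  · simp [hk.symm, hl.symm, hl'.symm]

theorem par {V : Type} [Fintype V] [DecidableEq V] (y : Fin 4 → V)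
    (k l l' : Fin 4) (hk : k ≠ 0) (hl : l ≠ 0) (hl' : l' ≠ 0) (h1 : k ≠ l) (h2 : k ≠ l')
    (h3 : l ≠ l') : NB y (gPar y k l l') where
  zero := by
    intro Y
    unfold crs lg
    rw [Finset.card_filter, Fin.sum_univ_two, Finset.card_filter, sum4 _ k l l' hk hl hl' h1 h2 h3]
    simp only [gPar, Matrix.cons_val_zero, Matrix.cons_val_one, cross]
    by_cases a0 : (Sum.inl (y 0) : V ⊕ Fin 0) ∈ Y <;> by_cases a1 : (Sum.inl (y k) : V ⊕ Fin 0) ∈ Y <;>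
      by_cases a2 : (Sum.inl (y l) : V ⊕ Fin 0) ∈ Y <;>
      by_cases a3 : (Sum.inl (y l') : V ⊕ Fin 0) ∈ Y <;> simp [a0, a1, a2, a3]
  one := by
    intro Y
    unfold crs lg
    rw [Finset.card_filter, Fin.sum_univ_two, Finset.card_filter, sum4 _ k l l' hk hl hl' h1 h2 h3]
    simp only [gPar, Matrix.cons_val_zero, Matrix.cons_val_one, cross]
    by_cases a0 : (Sum.inl (y 0) : V ⊕ Fin 0) ∈ Y <;> by_cases a1 : (Sum.inl (y k) : V ⊕ Fin 0) ∈ Y <;>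
      by_cases a2 : (Sum.inl (y l) : V ⊕ Fin 0) ∈ Y <;>
      by_cases a3 : (Sum.inl (y l') : V ⊕ Fin 0) ∈ Y <;> simp [a0, a1, a2, a3]

theorem tree {V : Type} [Fintype V] [DecidableEq V] (y : Fin 4 → V)
    (k l l' : Fin 4) (hk : k ≠ 0) (hl : l ≠ 0) (hl' : l' ≠ 0) (h1 : k ≠ l) (h2 : k ≠ l')
    (h3 : l ≠ l') : NB y (gTree y k l l') where
  zero := by
    intro Y
    unfold crs lg
    rw [Finset.card_filter, Fin.sum_univ_five, Finset.card_filter, sum4 _ k l l' hk hl hl' h1 h2 h3]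
    simp only [gTree, Matrix.cons_val, cross]
    by_cases a0 : (Sum.inl (y 0) : V ⊕ Fin 2) ∈ Y <;> by_cases a1 : (Sum.inl (y k) : V ⊕ Fin 2) ∈ Y <;>
      by_cases a2 : (Sum.inl (y l) : V ⊕ Fin 2) ∈ Y <;>
      by_cases a3 : (Sum.inl (y l') : V ⊕ Fin 2) ∈ Y <;>
      by_cases n0 : (Sum.inr 0 : V ⊕ Fin 2) ∈ Y <;>
      by_cases n1 : (Sum.inr 1 : V ⊕ Fin 2) ∈ Y <;> simp [a0, a1, a2, a3, n0, n1]
  one := by
    intro Y
    unfold crs lg
    rw [Finset.card_filter, Fin.sum_univ_five, Finset.card_filter, sum4 _ k l l' hk hl hl' h1 h2 h3]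
    simp only [gTree, Matrix.cons_val, cross]
    by_cases a0 : (Sum.inl (y 0) : V ⊕ Fin 2) ∈ Y <;> by_cases a1 : (Sum.inl (y k) : V ⊕ Fin 2) ∈ Y <;>
      by_cases a2 : (Sum.inl (y l) : V ⊕ Fin 2) ∈ Y <;>
      by_cases a3 : (Sum.inl (y l') : V ⊕ Fin 2) ∈ Y <;>
      by_cases n0 : (Sum.inr 0 : V ⊕ Fin 2) ∈ Y <;>
      by_cases n1 : (Sum.inr 1 : V ⊕ Fin 2) ∈ Y <;> simp [a0, a1, a2, a3, n0, n1]

theorem claw {V : Type} [Fintype V] [DecidableEq V] (y : Fin 3 → V) : NB y (gClaw y) where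
  zero := by
    intro Y
    unfold crs lg
    rw [Finset.card_filter, Fin.sum_univ_three, Finset.card_filter, Fin.sum_univ_three]
    simp only [gClaw, Matrix.cons_val, cross]
    by_cases a0 : (Sum.inl (y 0) : V ⊕ Fin 1) ∈ Y <;> by_cases a1 : (Sum.inl (y 1) : V ⊕ Fin 1) ∈ Y <;>
      by_cases a2 : (Sum.inl (y 2) : V ⊕ Fin 1) ∈ Y <;>
      by_cases n0 : (Sum.inr 0 : V ⊕ Fin 1) ∈ Y <;> simp [a0, a1, a2, n0]
  one := by
    intro Y
    unfold crs lg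
    rw [Finset.card_filter, Fin.sum_univ_three, Finset.card_filter, Fin.sum_univ_three]
    simp only [gClaw, Matrix.cons_val, cross]
    by_cases a0 : (Sum.inl (y 0) : V ⊕ Fin 1) ∈ Y <;> by_cases a1 : (Sum.inl (y 1) : V ⊕ Fin 1) ∈ Y <;>
      by_cases a2 : (Sum.inl (y 2) : V ⊕ Fin 1) ∈ Y <;>
      by_cases n0 : (Sum.inr 0 : V ⊕ Fin 1) ∈ Y <;> simp [a0, a1, a2, n0]

theorem edge {V : Type} [Fintype V] [DecidableEq V] (y : Fin 2 → V) : NB y (gEdge y) where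
  zero := by
    intro Y
    unfold crs lg
    rw [Finset.card_filter, Fin.sum_univ_one, Finset.card_filter, Fin.sum_univ_two]
    simp only [gEdge, Matrix.cons_val_fin_one, cross]
    by_cases a0 : (Sum.inl (y 0) : V ⊕ Fin 0) ∈ Y <;> by_cases a1 : (Sum.inl (y 1) : V ⊕ Fin 0) ∈ Y <;>
      simp [a0, a1]
  one := by
    intro Y
    unfold crs lg
    rw [Finset.card_filter, Fin.sum_univ_one, Finset.card_filter, Fin.sum_univ_two]
    simp only [gEdge, Matrix.cons_val_fin_one, cross]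
    by_cases a0 : (Sum.inl (y 0) : V ⊕ Fin 0) ∈ Y <;> by_cases a1 : (Sum.inl (y 1) : V ⊕ Fin 0) ∈ Y <;>
      simp [a0, a1]

theorem nb : TNB := by
  intro V _ _
  exact ⟨fun y _ k l l' hk hl hl' h1 h2 h3 =>
    ⟨par y k l l' hk hl hl' h1 h2 h3, tree y k l l' hk hl hl' h1 h2 h3⟩,
    fun y _ => claw y, fun y _ => edge y⟩

end Pool.Agent.H28R3.CX
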